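import Pool.Agent.Helper37.OF.St

/-!
# Project OF (MP_121524_al), module STG: staggered relators
-/

set_option autoImplicit false

namespace Pool.Agent.Helper38.OF

open Pool.Agent.Helper37.OF Monoid Pool.Agent.Helper4.FS

universe u v w x

/-- a homomorphism glued from two homomorphisms -/
private theorem glue {G : Type w} [Group G] {I : Type x} {P : Type v} [Group P]
    (a b : Fp G I →* P) (Y Z : Set I)
    (hab : ∀ i ∈ Y ∩ Z, ∀ g, a (ofi i g) = b (ofi i g)) :
    ∃ φ : Fp G I →* P, (∀ w' ∈ Sb G I Z, φ w' = a w') ∧ ∀ w' ∈ Sb G I Y, φ w' = b w' := by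
  classical
  obtain ⟨φ, hφ⟩ : ∃ φ : Fp G I →* P, ∀ i g, φ (ofi i g) =
      if i ∈ Z then a (ofi i g) else b (ofi i g) := by
    refine ⟨CoprodI.lift fun i => if i ∈ Z then
      a.comp (CoprodI.of (M := fun _ : I => G) (i := i)) else
      b.comp (CoprodI.of (M := fun _ : I => G) (i := i)), ?_⟩
    intro i g
    unfold ofi
    rw [CoprodI.lift_of]
    by_cases h : i ∈ Z
    · rw [if_pos h, if_pos h]
      rfl
    · rw [if_neg h, if_neg h]
      rfl
  refine ⟨φ, ?_, ?_⟩
  · intro w' hw
    refine hom_eq_on φ a (fun i hi g => ?_) hw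
    rw [hφ, if_pos hi]
  · intro w' hw
    refine hom_eq_on φ b (fun i hi g => ?_) hw
    rw [hφ]
    by_cases h : i ∈ Z
    · rw [if_pos h]
      exact hab i ⟨hi, h⟩ g
    · rw [if_neg h]

theorem hSTG : StSTG.{w, x} := by
  intro G _ X _ m n
  induction n with
  | zero =>
    intro R lo hi _ _ _ _ _
    exact ⟨Fp G (Option X), inferInstance, MonoidHom.id _, fun j => Fin.elim0 j, fun w' _ h => h⟩
  | succ n ih =>
    intro R lo hi hlo hhi hle hR hLF
    obtain ⟨M', _, φ', hφ'1, hφ'2⟩ := ih (fun j => R j.succ) (fun j => lo j.succ)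
      (fun j => hi j.succ) (fun a b h => hlo (Fin.succ_lt_succ_iff.2 h))
      (fun a b h => hhi (Fin.succ_lt_succ_iff.2 h)) (fun j => hle _) (fun j => hR _)
      (fun j => hLF _)
    obtain ⟨Z, hZ⟩ : ∃ Z : Set (Option X), Z = {i | ∀ y, i = some y → y ≤ hi 0} := ⟨_, rfl⟩
    obtain ⟨Y, hY⟩ : ∃ Y : Set (Option X), Y = {i | ∀ y, i = some y → lo 0 < y} := ⟨_, rfl⟩
    have hZm : ∀ i, i ∈ Z ↔ ∀ y, i = some y → y ≤ hi 0 := fun i => by rw [hZ]; rfl
    have hYm : ∀ i, i ∈ Y ↔ ∀ y, i = some y → lo 0 < y := fun i => by rw [hY]; rfl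
    have i1 : Function.Injective (φ'.comp (Sb G (Option X) (Y ∩ Z)).subtype) := by
      rw [injective_iff_map_eq_one]
      rintro ⟨c, hc⟩ h
      have h' : φ' c = 1 := h
      have : c = 1 := by
        refine hφ'2 c (Sb_mono ?_ hc) h'
        intro i hi' y hy j
        exact lt_of_le_of_lt ((hZm i).1 hi'.2 y hy) (hhi (Fin.succ_pos j))
      exact Subtype.ext this
    have i2 : Function.Injective ((QuotientGroup.mk' (Subgroup.normalClosure
        ({R 0 ^ m} : Set (Fp G (Option X))))).comp (Sb G (Option X) (Y ∩ Z)).subtype) := by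
      rw [injective_iff_map_eq_one]
      rintro ⟨c, hc⟩ h
      have h' : (QuotientGroup.mk' (Subgroup.normalClosure
        ({R 0 ^ m} : Set (Fp G (Option X))))) c = 1 := h
      rw [QuotientGroup.mk'_apply, QuotientGroup.eq_one_iff] at h'
      have : c = 1 := by
        refine (hLF 0).1 c (Sb_mono ?_ hc) h'
        intro i hi' he
        exact absurd ((hYm i).1 hi'.1 _ he) (lt_irrefl _)
      exact Subtype.ext this
    obtain ⟨P, _, i', j', hi', hj', hij⟩ :=
      Pool.Agent.Helper88.P3.exists_amalgam.{max x w, max x w, max x w} _ _ i1 i2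
    obtain ⟨φ, hφZ, hφY⟩ := glue (j'.comp (QuotientGroup.mk' (Subgroup.normalClosure
        ({R 0 ^ m} : Set (Fp G (Option X)))))) (i'.comp φ') Y Z (fun i hi g => by
      have := hij ⟨ofi i g, ofi_mem hi g⟩
      exact this.symm)
    have hlo0 : ∀ j : Fin n, lo 0 < lo j.succ := fun j => hlo (Fin.succ_pos j)
    refine ⟨P, inferInstance, φ, ?_, ?_⟩
    · intro j
      refine Fin.cases ?_ (fun j => ?_) j
      · have h1 : R 0 ∈ Sb G (Option X) Z := Sb_mono (fun i hi' => (hZm i).2 fun y hy =>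
          (hi' y hy).2) (hR 0)
        rw [hφZ _ h1, ← map_pow, MonoidHom.comp_apply]
        have h2 : (QuotientGroup.mk' (Subgroup.normalClosure
            ({R 0 ^ m} : Set (Fp G (Option X))))) (R 0 ^ m) = 1 := by
          rw [QuotientGroup.mk'_apply, QuotientGroup.eq_one_iff]
          exact Subgroup.subset_normalClosure rfl
        rw [h2, map_one]
      · have h1 : R j.succ ∈ Sb G (Option X) Y := Sb_mono (fun i hi' => (hYm i).2 fun y hy =>
          lt_of_lt_of_le (hlo0 j) (hi' y hy).1) (hR j.succ)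
        rw [hφY _ h1, MonoidHom.comp_apply, ← map_pow, hφ'1 j, map_one]
    · intro w' hw' h
      have h1 : w' ∈ Sb G (Option X) Z := Sb_mono (fun i hi' => (hZm i).2 fun y hy =>
          (hi' y hy 0).le) hw'
      rw [hφZ _ h1, MonoidHom.comp_apply] at h
      have h2 := (injective_iff_map_eq_one j').1 hj' _ h
      rw [QuotientGroup.mk'_apply, QuotientGroup.eq_one_iff] at h2
      refine (hLF 0).2 w' (Sb_mono ?_ hw') h2
      intro i hi' he
      exact absurd (hi' _ he 0) (lt_irrefl _)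

end Pool.Agent.Helper38.OF
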